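import Mathlib

/-!
Monotonic maps on classes of sets in a Hilbert space that keep the spherical cylinders: projection
invariance.
-/

set_option autoImplicit false

namespace Pool.Agent.Results.MP_f102ee_gt.HilbertSpaces

open Metric Pointwise Filter Topology

universe u

variable {E : Type u} [NormedAddCommGroup E] [InnerProductSpace ℝ E]

/-- The `H`-symmetric spherical cylinder `D_r(x) + s (B ∩ H^⊥)`. -/
def cyl (H : Submodule ℝ E) (x : E) (r s : ℝ) : Set E :=
  (closedBall x r ∩ (H : Set E)) + s • (closedBall (0 : E) 1 ∩ (Hᗮ : Set E))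

/-- Nonempty closed bounded convex sets; with nonempty interior when `body` is true. In a space of
finite dimension these are the compact convex sets and the convex bodies. -/
def InB (body : Bool) (K : Set E) : Prop :=
  K.Nonempty ∧ IsClosed K ∧ Bornology.IsBounded K ∧ Convex ℝ K ∧
    (body = true → (interior K).Nonempty)

/-- `S` is monotonic on `B`. -/
def Monotonic (B : Set (Set E)) (S : Set E → Set E) : Prop :=
  ∀ K ∈ B, ∀ L ∈ B, K ⊆ L → S K ⊆ S L

/-- The projection of the image of a cylinder over the ball with centre `x ∈ H` and radius `r` lies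
in this ball. -/
def KeepsCylinders (H : Submodule ℝ E) [H.HasOrthogonalProjection] (S : Set E → Set E) : Prop :=
  ∀ x ∈ H, ∀ r s : ℝ, 0 < r → 0 < s → H.starProjection '' S (cyl H x r s) ⊆ closedBall x r

/-- A class of nonempty bounded sets that contains the cylinders and in which every member contains,
near every one of its points, small members. -/
def Rich (H : Submodule ℝ E) (B : Set (Set E)) : Prop :=
  (∀ K ∈ B, K.Nonempty ∧ Bornology.IsBounded K) ∧
  (∀ x ∈ H, ∀ r s : ℝ, 0 < r → 0 < s → cyl H x r s ∈ B) ∧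
  ∀ K ∈ B, ∀ k ∈ K, ∀ ε > 0, ∃ L ∈ B, L ⊆ K ∩ closedBall k ε

/-- The projection of `K` is in the closure of the projection of `K'`, and the latter is in the
closed convex hull of the projection of `K`. -/
def Close (H : Submodule ℝ E) [H.HasOrthogonalProjection] (K K' : Set E) : Prop :=
  H.starProjection '' K ⊆ closure (H.starProjection '' K') ∧
    H.starProjection '' K' ⊆ closure (convexHull ℝ (H.starProjection '' K))

section aux

lemma mem_cyl (H : Submodule ℝ E) [H.HasOrthogonalProjection] (x : E)
    (r : ℝ) {s : ℝ} (hs : 0 < s) (y : E) :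
    y ∈ cyl H x r s ↔ ‖H.starProjection y - x‖ ≤ r ∧ ‖y - H.starProjection y‖ ≤ s := by
  constructor
  · rintro ⟨a, ⟨ha, haH⟩, _, ⟨b, ⟨hb, hbH⟩, rfl⟩, rfl⟩
    have e : H.starProjection (a + s • b) = a :=
      Submodule.eq_starProjection_of_mem_orthogonal' haH (Submodule.smul_mem _ s hbH) rfl
    simp only [e, add_sub_cancel_left, norm_smul, Real.norm_eq_abs, abs_of_pos hs]
    rw [mem_closedBall, dist_eq_norm] at ha
    rw [mem_closedBall, dist_zero_right] at hb
    exact ⟨ha, mul_le_of_le_one_right hs.le hb⟩
  · rintro ⟨h1, h2⟩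
    refine ⟨H.starProjection y, ⟨by rwa [mem_closedBall, dist_eq_norm],
      H.starProjection_apply_mem y⟩, y - H.starProjection y,
      ⟨s⁻¹ • (y - H.starProjection y), ⟨?_,
        Submodule.smul_mem _ _ (H.sub_starProjection_mem_orthogonal y)⟩, ?_⟩, by simp⟩
    · rw [mem_closedBall, dist_zero_right, norm_smul, Real.norm_eq_abs, abs_of_pos (inv_pos.2 hs),
        inv_mul_le_iff₀ hs]
      simpa using h2
    · simp only [smul_smul, mul_inv_cancel₀ hs.ne', one_smul]

lemma norm_sub_le' (H : Submodule ℝ E) [H.HasOrthogonalProjection]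
    (y : E) : ‖y - H.starProjection y‖ ≤ 2 * ‖y‖ := by
  have := norm_sub_le y (H.starProjection y)
  have := H.norm_starProjection_apply_le y
  linarith

lemma cyl_mem (body : Bool) (H : Submodule ℝ E) [H.HasOrthogonalProjection]
    {x : E} (hx : x ∈ H) {r s : ℝ} (hr : 0 < r) (hs : 0 < s) :
    InB body (cyl H x r s) := by
  have hx' : H.starProjection x = x := Submodule.starProjection_eq_self_iff.2 hx
  have hball : ball x (min r (s / 2)) ⊆ cyl H x r s := by
    intro y hy
    rw [mem_ball, dist_eq_norm, lt_min_iff] at hy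
    rw [mem_cyl H x r hs]
    constructor
    · have := H.norm_starProjection_apply_le (y - x)
      rw [map_sub, hx'] at this
      linarith [hy.1]
    · have := norm_sub_le' H (y - x)
      rw [map_sub, hx', sub_sub_sub_cancel_right] at this
      linarith [hy.2]
  have hpos : 0 < min r (s / 2) := lt_min hr (by linarith)
  have hset : cyl H x r s =
      {y | ‖H.starProjection y - x‖ ≤ r} ∩ {y | ‖y - H.starProjection y‖ ≤ s} := by
    ext y
    exact mem_cyl H x r hs y
  refine ⟨⟨x, hball (mem_ball_self hpos)⟩, ?_, ?_, ?_, fun _ => ⟨x, ?_⟩⟩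
  · rw [hset]
    exact (isClosed_le (by fun_prop) continuous_const).inter
      (isClosed_le (by fun_prop) continuous_const)
  · rw [isBounded_iff_forall_norm_le]
    refine ⟨r + ‖x‖ + s, fun y hy => ?_⟩
    rw [mem_cyl H x r hs] at hy
    have h1 : y = (H.starProjection y - x) + x + (y - H.starProjection y) := by abel
    have h2 := norm_add_le ((H.starProjection y - x) + x) (y - H.starProjection y)
    have h3 := norm_add_le (H.starProjection y - x) x
    rw [← h1] at h2
    linarith [hy.1, hy.2]
  · exact ((convex_closedBall x r).inter H.convex).add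
      (((convex_closedBall 0 1).inter Hᗮ.convex).smul s)
  · exact interior_maximal hball isOpen_ball (mem_ball_self hpos)

/-- The two inclusions for a general class of sets. -/
theorem general [CompleteSpace E] (H : Submodule ℝ E) [H.HasOrthogonalProjection]
    (B : Set (Set E)) (hne : ∀ K ∈ B, K.Nonempty ∧ Bornology.IsBounded K)
    (hcyl : ∀ x ∈ H, ∀ r s : ℝ, 0 < r → 0 < s → cyl H x r s ∈ B)
    (hloc : ∀ K ∈ B, ∀ k ∈ K, ∀ ε > 0, ∃ L ∈ B, L ⊆ K ∩ closedBall k ε)
    (S : Set E → Set E) (hS : ∀ K ∈ B, (S K).Nonempty)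
    (mono : ∀ K ∈ B, ∀ L ∈ B, K ⊆ L → S K ⊆ S L)
    (inv : ∀ x ∈ H, ∀ r s : ℝ, 0 < r → 0 < s →
      H.starProjection '' S (cyl H x r s) ⊆ closedBall x r)
    (K : Set E) (hK : K ∈ B) :
    H.starProjection '' K ⊆ closure (H.starProjection '' S K) ∧
    H.starProjection '' S K ⊆ closure (convexHull ℝ (H.starProjection '' K)) := by
  have key : ∀ L ∈ B, ∀ x ∈ H, ∀ r : ℝ, 0 < r →
      (∀ y ∈ L, ‖H.starProjection y - x‖ ≤ r) → ∀ y ∈ S L, ‖H.starProjection y - x‖ ≤ r := by
    intro L hL x hx r hr h y hy
    obtain ⟨M, hM0, hM⟩ := (hne L hL).2.exists_pos_norm_le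
    have hs : 0 < 2 * M := by linarith
    have hsub : L ⊆ cyl H x r (2 * M) := fun z hz =>
      (mem_cyl H x r hs z).2 ⟨h z hz, by linarith [norm_sub_le' H z, hM z hz]⟩
    have := inv x hx r _ hr hs ⟨y, mono _ hL _ (hcyl x hx r _ hr hs) hsub hy, rfl⟩
    rwa [mem_closedBall, dist_eq_norm] at this
  constructor
  · rintro _ ⟨k, hk, rfl⟩
    rw [Metric.mem_closure_iff]
    intro ε hε
    obtain ⟨L, hL, hLK⟩ := hloc K hK k hk (ε / 2) (by linarith)
    obtain ⟨y, hy⟩ := hS L hL
    have := key L hL _ (H.starProjection_apply_mem k) (ε / 2) (by linarith) (fun u hu => by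
      rw [← map_sub]
      refine (H.norm_starProjection_apply_le _).trans ?_
      have := (hLK hu).2
      rwa [mem_closedBall, dist_eq_norm] at this) y hy
    refine ⟨_, ⟨y, mono _ hL _ hK (fun u hu => (hLK hu).1) hy, rfl⟩, ?_⟩
    rw [dist_comm, dist_eq_norm]
    linarith
  · rintro _ ⟨y, hy, rfl⟩
    set z := H.starProjection y with hz
    set Q := closure (convexHull ℝ (H.starProjection '' K)) with hQ
    have hQv : Convex ℝ Q := (convex_convexHull ℝ _).closure
    have hQc : IsClosed Q := isClosed_closure
    have hKQ : H.starProjection '' K ⊆ Q := (subset_convexHull ℝ _).trans subset_closure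
    have hQne : Q.Nonempty := ((hne K hK).1.image _).mono hKQ
    have hKb : Bornology.IsBounded (H.starProjection '' K) :=
      (H.starProjection.lipschitz.isBounded_image (hne K hK).2)
    have hQb : Bornology.IsBounded Q := (isBounded_convexHull.2 hKb).closure
    have hHc : IsClosed (H : Set E) := by
      have : (H : Set E) = {x | H.starProjection x = x} := by
        ext x
        exact Submodule.starProjection_eq_self_iff.symm
      rw [this]
      exact isClosed_eq H.starProjection.continuous continuous_id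
    have hQH : Q ⊆ H := by
      refine closure_minimal (convexHull_min ?_ H.convex) hHc
      rintro _ ⟨k, -, rfl⟩
      exact H.starProjection_apply_mem k
    obtain ⟨w, hw, hmin⟩ := exists_norm_eq_iInf_of_complete_convex hQne
      hQc.isComplete hQv z
    have hin := (norm_eq_iInf_iff_real_inner_le_zero hQv hw).1 hmin
    by_contra hzn
    have hd : 0 < ‖z - w‖ := norm_pos_iff.2 (sub_ne_zero.2 fun h => hzn (h ▸ hw))
    obtain ⟨M, hM0, hM⟩ := (hQb.sub (Bornology.isBounded_singleton (x := w))).exists_pos_norm_le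
    set d := ‖z - w‖ with hdd
    set T : ℝ := M ^ 2 / d ^ 2 with hT
    have hT0 : 0 < T := by positivity
    have hTd : T * d ^ 2 = M ^ 2 := by rw [hT]; field_simp
    have hwH : w ∈ H := hQH hw
    have hzH : z ∈ H := H.starProjection_apply_mem y
    have hc : w - T • (z - w) ∈ H := H.sub_mem hwH (H.smul_mem _ (H.sub_mem hzH hwH))
    have hr : 0 < M ^ 2 + T ^ 2 * d ^ 2 := by positivity
    have := key K hK _ hc (√(M ^ 2 + T ^ 2 * d ^ 2)) (Real.sqrt_pos.2 hr) (fun k hk => by
      apply Real.le_sqrt_of_sq_le
      have e : H.starProjection k - (w - T • (z - w)) = (H.starProjection k - w) + T • (z - w) := by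
        abel
      rw [e, norm_add_sq_real, inner_smul_right, norm_smul, mul_pow, Real.norm_eq_abs, sq_abs,
        real_inner_comm]
      have h1 := hin _ (hKQ ⟨k, hk, rfl⟩)
      have h2 := hM _ ⟨_, hKQ ⟨k, hk, rfl⟩, w, rfl, rfl⟩
      have h3 : ‖H.starProjection k - w‖ ^ 2 ≤ M ^ 2 := pow_le_pow_left₀ (norm_nonneg _) h2 2
      nlinarith) y hy
    have e : z - (w - T • (z - w)) = (1 + T) • (z - w) := by
      rw [add_smul, one_smul]; abel
    rw [← hz, e, norm_smul, Real.norm_eq_abs, abs_of_pos (by linarith)] at this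
    have h2 := pow_le_pow_left₀ (by positivity) this 2
    rw [Real.sq_sqrt hr.le] at h2
    nlinarith [sq_pos_of_pos hd, sq_pos_of_pos hM0]

/-- Continuous linear images of closed bounded convex sets of a Hilbert space are closed. -/
theorem closed_image [CompleteSpace E] {C : Set E} (hc : IsClosed C)
    (hb : Bornology.IsBounded C) (hv : Convex ℝ C) (f : E →L[ℝ] E) : IsClosed (f '' C) := by
  refine isClosed_of_closure_subset fun y hy => ?_
  let D : ℕ → Set E := fun n => C ∩ f ⁻¹' closedBall y (1 / (n + 1))
  have hDne : ∀ n, (D n).Nonempty := by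
    intro n
    obtain ⟨_, ⟨c, hc1, rfl⟩, hc2⟩ := Metric.mem_closure_iff.1 hy (1 / (n + 1)) (by positivity)
    refine ⟨c, hc1, ?_⟩
    rw [Set.mem_preimage, mem_closedBall, dist_comm]
    exact hc2.le
  have hDc : ∀ n, IsClosed (D n) := fun n => hc.inter (isClosed_closedBall.preimage f.continuous)
  have hDv : ∀ n, Convex ℝ (D n) := fun n =>
    hv.inter ((convex_closedBall _ _).is_linear_preimage f.toLinearMap.isLinear)
  have hDm : ∀ n k, n ≤ k → D k ⊆ D n := by
    intro n k hnk x hx
    refine ⟨hx.1, closedBall_subset_closedBall ?_ hx.2⟩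
    have : (n : ℝ) ≤ k := by exact_mod_cast hnk
    gcongr
  have hex : ∀ n, ∃ v ∈ D n, ∀ w ∈ D n, inner ℝ (0 - v) (w - v) ≤ 0 := by
    intro n
    obtain ⟨v, hv1, hv2⟩ := exists_norm_eq_iInf_of_complete_convex (hDne n)
      (hDc n).isComplete (hDv n) 0
    exact ⟨v, hv1, (norm_eq_iInf_iff_real_inner_le_zero (hDv n) hv1).1 hv2⟩
  choose v hv1 hv2 using hex
  have hle : ∀ n k, n ≤ k → ‖v k - v n‖ ^ 2 ≤ ‖v k‖ ^ 2 - ‖v n‖ ^ 2 := by
    intro n k hnk
    have h1 := hv2 n (v k) (hDm n k hnk (hv1 k))
    rw [zero_sub, inner_neg_left, inner_sub_right, real_inner_self_eq_norm_sq] at h1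
    rw [norm_sub_sq_real, real_inner_comm]
    linarith
  obtain ⟨M, hM⟩ := isBounded_iff_forall_norm_le.1 hb
  have hmono : Monotone fun n => ‖v n‖ ^ 2 := fun n k hnk => by
    have := hle n k hnk
    have := sq_nonneg ‖v k - v n‖
    simp only
    linarith
  have hbd : BddAbove (Set.range fun n => ‖v n‖ ^ 2) := by
    refine ⟨M ^ 2, ?_⟩
    rintro _ ⟨n, rfl⟩
    exact pow_le_pow_left₀ (norm_nonneg _) (hM _ (hv1 n).1) 2
  have hlim := tendsto_atTop_ciSup hmono hbd
  set A := ⨆ n, ‖v n‖ ^ 2
  have hA : ∀ n, ‖v n‖ ^ 2 ≤ A := fun n => le_ciSup hbd n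
  have hcau : CauchySeq v := by
    refine cauchySeq_of_le_tendsto_0' (fun n => √(A - ‖v n‖ ^ 2)) (fun n k hnk => ?_) ?_
    · rw [dist_comm, dist_eq_norm]
      apply Real.le_sqrt_of_sq_le
      linarith [hle n k hnk, hA k]
    · have h1 : Tendsto (fun n => √(A - ‖v n‖ ^ 2)) atTop (𝓝 (√(A - A))) :=
        (tendsto_const_nhds.sub hlim).sqrt
      simpa using h1
  obtain ⟨c, hlimc⟩ := cauchySeq_tendsto_of_complete hcau
  have hcD : ∀ n, c ∈ D n := fun n => (hDc n).mem_of_tendsto hlimc
    ((eventually_ge_atTop n).mono fun k hk => hDm n k hk (hv1 k))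
  refine ⟨c, (hcD 0).1, ?_⟩
  have h1 : ∀ n : ℕ, dist (f c) y ≤ 1 / ((n : ℝ) + 1) := fun n => (hcD n).2
  have h2 := ge_of_tendsto' tendsto_one_div_add_atTop_nhds_zero_nat h1
  exact dist_le_zero.1 h2

theorem convex_case [CompleteSpace E] (H : Submodule ℝ E) [H.HasOrthogonalProjection]
    (body : Bool) (S : Set E → Set E) (hS : ∀ K, InB body K → InB body (S K))
    (mono : ∀ K L, InB body K → InB body L → K ⊆ L → S K ⊆ S L)
    (inv : ∀ x ∈ H, ∀ r s : ℝ, 0 < r → 0 < s →
      H.starProjection '' S (cyl H x r s) ⊆ closedBall x r)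
    (K : Set E) (hK : InB body K) :
    H.starProjection '' S K = H.starProjection '' K := by
  obtain ⟨h1, h2⟩ := general H {K | InB body K} (fun K hK => ⟨hK.1, hK.2.2.1⟩)
    (fun x hx r s hr hs => cyl_mem body H hx hr hs) (fun K hK k hk ε hε => by
      refine ⟨K ∩ closedBall k ε, ⟨⟨k, hk, mem_closedBall_self hε.le⟩,
        hK.2.1.inter isClosed_closedBall, hK.2.2.1.subset Set.inter_subset_left,
        hK.2.2.2.1.inter (convex_closedBall _ _), fun hb => ?_⟩, subset_rfl⟩
      have h1 : k ∈ closure (interior K) := by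
        rw [hK.2.2.2.1.closure_interior_eq_closure_of_nonempty_interior (hK.2.2.2.2 hb)]
        exact subset_closure hk
      obtain ⟨u, hu, hd⟩ := Metric.mem_closure_iff.1 h1 ε hε
      refine ⟨u, ?_⟩
      rw [interior_inter]
      exact ⟨hu, ball_subset_interior_closedBall (by rwa [mem_ball, dist_comm])⟩)
    S (fun K hK => (hS K hK).1) (fun K hK L hL => mono K L hK hL) inv K hK
  have hcl : ∀ L, InB body L → IsClosed (H.starProjection '' L) := fun L hL =>
    closed_image hL.2.1 hL.2.2.1 hL.2.2.2.1 H.starProjection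
  apply Set.Subset.antisymm
  · refine h2.trans ?_
    have hPv : Convex ℝ (H.starProjection '' K) :=
      hK.2.2.2.1.is_linear_image H.starProjection.toLinearMap.isLinear
    rw [hPv.convexHull_eq, (hcl K hK).closure_eq]
  · rw [(hcl _ (hS K hK)).closure_eq] at h1
    exact h1

end aux

/-- **Monotonic symmetrizations that keep the spherical cylinders are projection invariant, in
every Hilbert space.** Let `H` be a closed subspace of the real Hilbert space `E` (a subspace with
an orthogonal projection).
1. Let `S` be a monotonic map of the class of the nonempty closed bounded convex subsets of `E`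
   (or of those with nonempty interior) to itself such that, for every `H`-symmetric spherical
   cylinder `C` over the ball with centre `x ∈ H` and radius `r`, the projection of `S C` lies in
   that ball. Then `S K` and `K` have the same projection onto `H` for all `K`.
2. More generally let `B` be any rich class of nonempty bounded sets, convex or not. Then
   for every monotonic `S` on `B` with nonempty values and the same condition on the cylinders and
   for every `K` in `B`, the projection of `K` is in the closure of that of `S K`, and the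
   projection of `S K` is in the closed convex hull of that of `K`.
3. The class of all nonempty closed bounded sets is rich. -/
theorem result (E : Type u) [NormedAddCommGroup E] [InnerProductSpace ℝ E] [CompleteSpace E]
    (H : Submodule ℝ E) [H.HasOrthogonalProjection] :
    (∀ (body : Bool) (S : Set E → Set E), (∀ K, InB body K → InB body (S K)) →
      Monotonic {K | InB body K} S → KeepsCylinders H S →
      ∀ K, InB body K → H.starProjection '' S K = H.starProjection '' K) ∧
    (∀ B : Set (Set E), Rich H B → ∀ S : Set E → Set E, (∀ K ∈ B, (S K).Nonempty) →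
      Monotonic B S → KeepsCylinders H S → ∀ K ∈ B, Close H K (S K)) ∧
    Rich H {K : Set E | K.Nonempty ∧ IsClosed K ∧ Bornology.IsBounded K} := by
  refine ⟨fun body S hS mono inv K hK =>
      convex_case H body S hS (fun K L hK hL => mono K hK L hL) inv K hK,
    fun B hB S hS mono inv K hK => general H B hB.1 hB.2.1 hB.2.2 S hS mono inv K hK,
    fun K hK => ⟨hK.1, hK.2.2⟩, fun x hx r s hr hs => ?_, fun K hK k hk ε hε => ?_⟩
  · have := cyl_mem false H hx hr hs
    exact ⟨this.1, this.2.1, this.2.2.1⟩
  · exact ⟨K ∩ closedBall k ε, ⟨⟨k, hk, mem_closedBall_self hε.le⟩,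
      hK.2.1.inter isClosed_closedBall, hK.2.2.subset Set.inter_subset_left⟩, subset_rfl⟩

end Pool.Agent.Results.MP_f102ee_gt.HilbertSpaces
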